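import Mathlib
import Pool.Agent.Helper43.Hw.Goals2

/-!
Packet H17a: points of a linear sequence near integers.
-/

set_option autoImplicit false

namespace Pool.Agent.Helper43.Hw.PkH17a

open Finset

/-- a finite set of integers of diameter at most `D` has at most `D + 1` elements -/
theorem card_diam (A : Finset ℤ) (D : ℝ) (hD : 0 ≤ D)
    (h : ∀ a ∈ A, ∀ b ∈ A, |(a : ℝ) - b| ≤ D) : (A.card : ℝ) ≤ D + 1 := by
  rcases A.eq_empty_or_nonempty with h0 | h0
  · rw [h0]; simp; linarith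
  · have hm := A.min'_mem h0
    have hM := A.max'_mem h0
    have hsub : A ⊆ Icc (A.min' h0) (A.max' h0) := fun x hx =>
      mem_Icc.2 ⟨A.min'_le x hx, A.le_max' x hx⟩
    have h1 : (A.card : ℤ) ≤ A.max' h0 - A.min' h0 + 1 := by
      have h2 := card_le_card hsub
      rw [Int.card_Icc] at h2
      have h3 : A.min' h0 ≤ A.max' h0 := A.min'_le _ hM
      omega
    have h2 : (A.card : ℝ) ≤ (A.max' h0 : ℝ) - A.min' h0 + 1 := by exact_mod_cast h1
    have h3 := (le_abs_self _).trans (h _ hM _ hm)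
    linarith

/-- the count in a residue class -/
theorem card_class (θ α δ β : ℝ) (q r M : ℕ) (p₀ : ℤ) (hδ : 0 < δ) (hq : 1 ≤ q)
    (hβ0 : 0 < β) (hβδ : β ≤ 2 * δ) (hp₀ : |(q : ℝ) * θ - p₀| = β) (f : ℕ → ℤ) (A : Finset ℕ)
    (hA : ∀ m ∈ A, m < M ∧ m % q = r ∧ |(m : ℝ) * θ + α - f m| ≤ δ) :
    (A.card : ℝ) ≤ (4 * δ / β) * ((M : ℝ) / q * β + 2 * δ + 1) := by
  classical
  have hq0 : (0 : ℝ) < q := by exact_mod_cast hq
  set b : ℝ := (q : ℝ) * θ - p₀ with hb
  set g : ℕ → ℤ := fun m => f m - (m / q : ℕ) * p₀ with hg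
  -- the reduced inequality
  have hred : ∀ m ∈ A, |(r : ℝ) * θ + α + ((m / q : ℕ) : ℝ) * b - g m| ≤ δ := by
    intro m hm
    obtain ⟨-, h2, h3⟩ := hA m hm
    have h4 : (m : ℝ) = r + (q : ℝ) * ((m / q : ℕ) : ℝ) := by
      have := Nat.mod_add_div m q
      rw [h2] at this
      exact_mod_cast this.symm
    have h5 : (r : ℝ) * θ + α + ((m / q : ℕ) : ℝ) * b - g m = (m : ℝ) * θ + α - f m := by
      rw [h4, hb]
      simp only [hg, Int.cast_sub, Int.cast_mul, Int.cast_natCast]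
      ring
    rw [h5]
    exact h3
  have hjle : ∀ m ∈ A, (((m / q : ℕ) : ℝ)) ≤ (M : ℝ) / q := by
    intro m hm
    have h1 : ((m / q : ℕ) : ℝ) ≤ (m : ℝ) / q := Nat.cast_div_le
    have h2 : (m : ℝ) ≤ M := by exact_mod_cast (hA m hm).1.le
    exact h1.trans (div_le_div_of_nonneg_right h2 hq0.le)
  -- the number of values
  have himg : ((A.image g).card : ℝ) ≤ ((M : ℝ) / q * β + 2 * δ) + 1 := by
    refine card_diam _ _ (by positivity) ?_
    intro x hx y hy
    obtain ⟨m, hm, rfl⟩ := mem_image.1 hx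
    obtain ⟨m', hm', rfl⟩ := mem_image.1 hy
    have h1 := hred m hm
    have h2 := hred m' hm'
    have h3 := hjle m hm
    have h4 := hjle m' hm'
    have h5 : |((m / q : ℕ) : ℝ) - ((m' / q : ℕ) : ℝ)| ≤ (M : ℝ) / q := by
      have e1 : (0 : ℝ) ≤ ((m / q : ℕ) : ℝ) := Nat.cast_nonneg _
      have e2 : (0 : ℝ) ≤ ((m' / q : ℕ) : ℝ) := Nat.cast_nonneg _
      rw [abs_le]
      constructor <;> linarith
    have h6 : |(((m / q : ℕ) : ℝ) - ((m' / q : ℕ) : ℝ)) * b| ≤ (M : ℝ) / q * β := by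
      rw [abs_mul, hp₀]
      exact mul_le_mul_of_nonneg_right h5 hβ0.le
    have h7 : (g m : ℝ) - g m' = (((m / q : ℕ) : ℝ) - ((m' / q : ℕ) : ℝ)) * b -
        ((r : ℝ) * θ + α + ((m / q : ℕ) : ℝ) * b - g m) +
        ((r : ℝ) * θ + α + ((m' / q : ℕ) : ℝ) * b - g m') := by ring
    rw [h7]
    calc _ ≤ |(((m / q : ℕ) : ℝ) - ((m' / q : ℕ) : ℝ)) * b -
          ((r : ℝ) * θ + α + ((m / q : ℕ) : ℝ) * b - g m)| + _ := abs_add_le _ _
      _ ≤ (|(((m / q : ℕ) : ℝ) - ((m' / q : ℕ) : ℝ)) * b| + _) + _ :=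
          add_le_add_left (abs_sub _ _) _
      _ ≤ _ := by linarith
  -- the fibers
  set k : ℕ := ⌊2 * δ / β⌋₊ + 1 with hk
  have hfib : ∀ a ∈ A.image g, (A.filter fun m => g m = a).card ≤ k := by
    intro a _
    set F := A.filter fun m => g m = a with hF
    have hinj : Set.InjOn (fun m : ℕ => ((m / q : ℕ) : ℤ)) (F : Set ℕ) := by
      intro m hm m' hm' hmm
      rw [Finset.mem_coe, hF, mem_filter] at hm hm'
      have e1 : m / q = m' / q := by
        have e0 : ((m / q : ℕ) : ℤ) = ((m' / q : ℕ) : ℤ) := hmm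
        exact_mod_cast e0
      have e2 := (hA m hm.1).2.1
      have e3 := (hA m' hm'.1).2.1
      have e4 := Nat.mod_add_div m q
      have e5 := Nat.mod_add_div m' q
      rw [e2, e1] at e4
      rw [e3] at e5
      omega
    rw [← card_image_of_injOn hinj]
    have h1 : (((F.image fun m : ℕ => ((m / q : ℕ) : ℤ)).card : ℕ) : ℝ) ≤ 2 * δ / β + 1 := by
      refine card_diam _ _ (by positivity) ?_
      intro x hx y hy
      obtain ⟨m, hm, rfl⟩ := mem_image.1 hx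
      obtain ⟨m', hm', rfl⟩ := mem_image.1 hy
      rw [hF, mem_filter] at hm hm'
      have h1 := hred m hm.1
      have h2 := hred m' hm'.1
      rw [hm.2] at h1
      rw [hm'.2] at h2
      rw [le_div_iff₀ hβ0, ← hp₀, ← abs_mul]
      simp only [Int.cast_natCast]
      have h7 : (((m / q : ℕ) : ℝ) - ((m' / q : ℕ) : ℝ)) * b =
        ((r : ℝ) * θ + α + ((m / q : ℕ) : ℝ) * b - a) -
        ((r : ℝ) * θ + α + ((m' / q : ℕ) : ℝ) * b - a) := by ring
      have h8 := abs_sub ((r : ℝ) * θ + α + ((m / q : ℕ) : ℝ) * b - a)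
        ((r : ℝ) * θ + α + ((m' / q : ℕ) : ℝ) * b - a)
      rw [← h7] at h8
      exact h8.trans (by linarith)
    have h2 : (F.image fun m : ℕ => ((m / q : ℕ) : ℤ)).card ≤ ⌊2 * δ / β + 1⌋₊ :=
      Nat.le_floor h1
    rw [Nat.floor_add_one (by positivity)] at h2
    exact h2
  have hcard := card_le_mul_card_image A k hfib
  have hcardR : (A.card : ℝ) ≤ k * (A.image g).card := by exact_mod_cast hcard
  have hkR : (k : ℝ) ≤ 4 * δ / β := by
    rw [hk]
    push_cast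
    have h1 : (⌊2 * δ / β⌋₊ : ℝ) ≤ 2 * δ / β := Nat.floor_le (by positivity)
    have h2 : (1 : ℝ) ≤ 2 * δ / β := by rwa [le_div_iff₀ hβ0, one_mul]
    have h3 : 4 * δ / β = 2 * δ / β + 2 * δ / β := by ring
    linarith
  calc (A.card : ℝ) ≤ k * (A.image g).card := hcardR
    _ ≤ (4 * δ / β) * ((M : ℝ) / q * β + 2 * δ + 1) :=
        mul_le_mul hkR himg (by positivity) (by positivity)

theorem goalH17a : GoalH17a := by
  classical
  intro θ α δ η M hδ hδ4 hη H
  -- Dirichlet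
  set N : ℕ := ⌊1 / (2 * δ)⌋₊ with hN
  have h2δ : (2 : ℝ) ≤ 1 / (2 * δ) := by
    rw [le_div_iff₀ (by positivity)]
    linarith
  have hN0 : 0 < N := by
    rw [hN, Nat.floor_pos]
    linarith
  have hNle : (N : ℝ) ≤ 1 / (2 * δ) := Nat.floor_le (by positivity)
  have hNlt : 1 / (2 * δ) < (N : ℝ) + 1 := Nat.lt_floor_add_one _
  obtain ⟨q, hq0, hqN, hqθ⟩ := Real.exists_nat_abs_mul_sub_round_le θ hN0
  set p₀ : ℤ := round ((q : ℝ) * θ) with hp₀
  have hqδ : (q : ℝ) * (2 * δ) ≤ 1 := by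
    have h1 : (q : ℝ) ≤ 1 / (2 * δ) := le_trans (by exact_mod_cast hqN) hNle
    rwa [le_div_iff₀ (by positivity)] at h1
  set β : ℝ := |(q : ℝ) * θ - p₀| with hβ
  have hηβ : η ≤ β := H q hq0 hqδ p₀
  have hβ0 : 0 < β := lt_of_lt_of_le hη hηβ
  have hβδ : β ≤ 2 * δ := by
    refine hqθ.trans ?_
    rw [div_le_iff₀ (by positivity)]
    rw [div_lt_iff₀ (by positivity)] at hNlt
    linarith
  -- the set
  set S : Set ℕ := {m : ℕ | m < M ∧ ∃ p : ℤ, |(m : ℝ) * θ + α - p| ≤ δ} with hS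
  set f : ℕ → ℤ := fun m => if h : ∃ p : ℤ, |(m : ℝ) * θ + α - p| ≤ δ then h.choose else 0
    with hf
  have hfS : ∀ m ∈ S, |(m : ℝ) * θ + α - f m| ≤ δ := by
    intro m hm
    have h := hm.2
    simp only [hf, dif_pos h]
    exact h.choose_spec
  set A : Finset ℕ := (range M).filter fun m => m ∈ S with hAdef
  have hSA : S = (A : Set ℕ) := by
    ext m
    simp only [hAdef, coe_filter, mem_range, Set.mem_setOf_eq]
    exact ⟨fun h => ⟨h.1, h⟩, fun h => h.2⟩
  rw [hSA, Set.ncard_coe_finset]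
  have hq1 : (0 : ℝ) < q := by exact_mod_cast hq0
  -- the residue classes
  have hsum : A.card = ∑ r ∈ range q, (A.filter fun m => m % q = r).card := by
    refine card_eq_sum_card_fiberwise fun m _ => ?_
    simp only [coe_range, Set.mem_Iio]
    exact Nat.mod_lt m hq0
  have hcl : ∀ r ∈ range q, ((A.filter fun m => m % q = r).card : ℝ) ≤
      (4 * δ / β) * ((M : ℝ) / q * β + 2 * δ + 1) := by
    intro r _
    refine card_class θ α δ β q r M p₀ hδ hq0 hβ0 hβδ hβ.symm f _ ?_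
    intro m hm
    rw [mem_filter, hAdef, mem_filter] at hm
    exact ⟨hm.1.2.1, hm.2, hfS m hm.1.2⟩
  have h1 : (A.card : ℝ) ≤ q * ((4 * δ / β) * ((M : ℝ) / q * β + 2 * δ + 1)) := by
    rw [hsum]
    push_cast
    refine (sum_le_sum hcl).trans (le_of_eq ?_)
    rw [sum_const, card_range, nsmul_eq_mul]
  have h2 : (q : ℝ) * ((4 * δ / β) * ((M : ℝ) / q * β + 2 * δ + 1)) =
      4 * δ * M + 2 * ((q : ℝ) * (2 * δ)) * (2 * δ + 1) / β := by
    field_simp
    ring
  have h3 : 2 * ((q : ℝ) * (2 * δ)) * (2 * δ + 1) / β ≤ 4 / η := by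
    rw [div_le_div_iff₀ hβ0 hη]
    have h4 : 0 ≤ (q : ℝ) * (2 * δ) := by positivity
    have h5 : 2 * ((q : ℝ) * (2 * δ)) * (2 * δ + 1) ≤ 4 := by nlinarith
    calc 2 * ((q : ℝ) * (2 * δ)) * (2 * δ + 1) * η ≤ 4 * η :=
          mul_le_mul_of_nonneg_right h5 hη.le
      _ ≤ 4 * β := by linarith
  rw [h2] at h1
  linarith

end Pool.Agent.Helper43.Hw.PkH17a
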